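import Pool.Agent.helper86.OF.SpecL

/-!
# Project of (MP_c62920_co), module BAL
-/

set_option autoImplicit false

open scoped BigOperators

namespace Pool.Agent.OF

noncomputable section

open Classical

theorem BAL_split {V : Type} [Fintype V] (G : SimpleGraph V) (c : Sym2 V → ℕ) (X T : Finset V)
    (i : ℕ) : mis G c X i = ((X.filter fun x => x ∈ T ∧ ¬ has G c x i).card) +
      ((X.filter fun x => x ∉ T ∧ ¬ has G c x i).card) := by
  unfold mis
  rw [← Finset.card_filter_add_card_filter_not (s := X.filter fun x => ¬ has G c x i)
    (fun x => x ∈ T), Finset.filter_filter, Finset.filter_filter]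
  congr 2
  · ext x; simp only [Finset.mem_filter]; tauto
  · ext x; simp only [Finset.mem_filter]; tauto

theorem BAL_sum (D i j : ℕ) (hi : i < D) (hj : j < D) (hij : i ≠ j) (f : ℕ → ℕ) :
    ∑ k ∈ Finset.range D, f k = f i + (f j + ∑ k ∈ ((Finset.range D).erase i).erase j, f k) := by
  rw [Finset.add_sum_erase _ f (by simp [hj, hij.symm]), Finset.add_sum_erase _ f (by simp [hi])]

theorem BAL (hKSW : KSW_stmt) (hKCO : KCO_stmt) : BAL_stmt := by
  intro V _ G D X hEC
  have main : ∀ n : ℕ, ∀ c, PEC G D c → ∑ k ∈ Finset.range D, (mis G c X k) ^ 2 = n →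
      ∃ c, PEC G D c ∧ ∀ i < D, ∀ j < D, mis G c X i ≤ mis G c X j + 2 := by
    intro n
    induction n using Nat.strong_induction_on with
    | _ n ih =>
      intro c hc hn
      by_cases hall : ∀ i < D, ∀ j < D, mis G c X i ≤ mis G c X j + 2
      · exact ⟨c, hc, hall⟩
      push Not at hall
      obtain ⟨i, hi, j, hj, hlt⟩ := hall
      have hij : i ≠ j := by
        rintro rfl
        omega
      obtain ⟨S, hS1, hS2, hS3, hS4⟩ := hKCO V G D c i j hc hij
      have hSiff : ∀ x v, S x = S v ↔ x ∈ S v := fun x v =>
        ⟨fun h => h ▸ hS1 x, fun h => hS2 v x h⟩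
      have hex : ∃ v, (X.filter fun x => x ∈ S v ∧ ¬ has G c x j).card <
          (X.filter fun x => x ∈ S v ∧ ¬ has G c x i).card := by
        by_contra hno
        push Not at hno
        have h1 : ∀ k, (X.filter fun x => ¬ has G c x k).card =
            ∑ T ∈ Finset.univ.image S,
              ((X.filter fun x => ¬ has G c x k).filter fun x => S x = T).card := fun k =>
          Finset.card_eq_sum_card_fiberwise (fun x _ => by simp)
        have h2 : mis G c X i ≤ mis G c X j := by
          unfold mis
          rw [h1 i, h1 j]
          apply Finset.sum_le_sum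
          intro T hT
          obtain ⟨v, -, rfl⟩ := Finset.mem_image.1 hT
          have h3 := hno v
          have h4 : ∀ k, ((X.filter fun x => ¬ has G c x k).filter fun x => S x = S v) =
              X.filter fun x => x ∈ S v ∧ ¬ has G c x k := by
            intro k
            ext x
            simp only [Finset.mem_filter, hSiff]
            tauto
          rw [h4 i, h4 j]
          exact h3
        omega
      obtain ⟨v, hv⟩ := hex
      obtain ⟨k1, k2, k3, k4⟩ := hKSW V G D c i j (S v) hc hi hj (hS3 v)
      have hd : (X.filter fun x => x ∈ S v ∧ ¬ has G c x i).card ≤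
          (X.filter fun x => x ∈ S v ∧ ¬ has G c x j).card + 2 := by
        have h5 : (X.filter fun x => x ∈ S v ∧ ¬ has G c x i) ⊆
            (X.filter fun x => x ∈ S v ∧ ¬ has G c x j) ∪
              ((S v).filter fun w => ¬ (has G c w i ↔ has G c w j)) := by
          intro x
          simp only [Finset.mem_filter, Finset.mem_union]
          tauto
        have h6 := Finset.card_le_card h5
        have h7 := Finset.card_union_le (X.filter fun x => x ∈ S v ∧ ¬ has G c x j)
          ((S v).filter fun w => ¬ (has G c w i ↔ has G c w j))
        rcases hS4 v with h8 | h8 <;> omega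
      set c' := ksw c i j (S v) with hc'
      have e1 : mis G c X i = (X.filter fun x => x ∈ S v ∧ ¬ has G c x i).card +
          (X.filter fun x => x ∉ S v ∧ ¬ has G c x i).card := BAL_split G c X (S v) i
      have e2 : mis G c X j = (X.filter fun x => x ∈ S v ∧ ¬ has G c x j).card +
          (X.filter fun x => x ∉ S v ∧ ¬ has G c x j).card := BAL_split G c X (S v) j
      have e3 : mis G c' X i = (X.filter fun x => x ∈ S v ∧ ¬ has G c x j).card +
          (X.filter fun x => x ∉ S v ∧ ¬ has G c x i).card := by
        rw [BAL_split G c' X (S v)]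
        congr 1
        · congr 1
          ext x
          simp only [Finset.mem_filter]
          constructor
          · rintro ⟨a, b, d⟩
            exact ⟨a, b, fun h => d ((k2 x b).1.2 h)⟩
          · rintro ⟨a, b, d⟩
            exact ⟨a, b, fun h => d ((k2 x b).1.1 h)⟩
        · congr 1
          ext x
          simp only [Finset.mem_filter]
          constructor
          · rintro ⟨a, b, d⟩
            exact ⟨a, b, fun h => d ((k3 x b i).2 h)⟩
          · rintro ⟨a, b, d⟩
            exact ⟨a, b, fun h => d ((k3 x b i).1 h)⟩
      have e4 : mis G c' X j = (X.filter fun x => x ∈ S v ∧ ¬ has G c x i).card +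
          (X.filter fun x => x ∉ S v ∧ ¬ has G c x j).card := by
        rw [BAL_split G c' X (S v)]
        congr 1
        · congr 1
          ext x
          simp only [Finset.mem_filter]
          constructor
          · rintro ⟨a, b, d⟩
            exact ⟨a, b, fun h => d ((k2 x b).2.2 h)⟩
          · rintro ⟨a, b, d⟩
            exact ⟨a, b, fun h => d ((k2 x b).2.1 h)⟩
        · congr 1
          ext x
          simp only [Finset.mem_filter]
          constructor
          · rintro ⟨a, b, d⟩
            exact ⟨a, b, fun h => d ((k3 x b j).2 h)⟩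
          · rintro ⟨a, b, d⟩
            exact ⟨a, b, fun h => d ((k3 x b j).1 h)⟩
      have e5 : ∑ k ∈ ((Finset.range D).erase i).erase j, (mis G c' X k) ^ 2 =
          ∑ k ∈ ((Finset.range D).erase i).erase j, (mis G c X k) ^ 2 := by
        apply Finset.sum_congr rfl
        intro k hk
        have hk1 : k ≠ j := (Finset.mem_erase.1 hk).1
        have hk2 : k ≠ i := (Finset.mem_erase.1 (Finset.mem_erase.1 hk).2).1
        congr 1
        unfold mis
        congr 1
        ext x
        simp only [Finset.mem_filter, k4 x k hk2 hk1]
      have hlt' : ∑ k ∈ Finset.range D, (mis G c' X k) ^ 2 < n := by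
        rw [← hn, BAL_sum D i j hi hj hij, BAL_sum D i j hi hj hij, e5]
        have : (mis G c' X i) ^ 2 + (mis G c' X j) ^ 2 < (mis G c X i) ^ 2 + (mis G c X j) ^ 2 := by
          rw [e1, e2] at hlt ⊢
          rw [e3, e4]
          generalize (X.filter fun x => x ∈ S v ∧ ¬ has G c x i).card = p at *
          generalize (X.filter fun x => x ∈ S v ∧ ¬ has G c x j).card = q at *
          generalize (X.filter fun x => x ∉ S v ∧ ¬ has G c x i).card = r at *
          generalize (X.filter fun x => x ∉ S v ∧ ¬ has G c x j).card = s at *
          have h9 : q + 1 ≤ p := hv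
          have h10 : p ≤ q + 2 := hd
          have h11 : q + s + 3 ≤ p + r := by omega
          have h12 : s + 1 ≤ r := by omega
          nlinarith [mul_pos (show (0 : ℤ) < (p : ℤ) - q by omega) (show (0 : ℤ) < (r : ℤ) - s by omega)]
        omega
      exact ih _ hlt' c' k1 rfl
  obtain ⟨c, hc⟩ := hEC
  exact main _ c hc rfl

end

end Pool.Agent.OF
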