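import Pool.Agent.helper86.OF.SpecB

/-!
# Project of (MP_c62920_co), module BL8
-/

set_option autoImplicit false

open scoped BigOperators

namespace Pool.Agent.OF

noncomputable section

open Classical

theorem BL8_kd {V : Type} {K : SimpleGraph V} {x0 y0 v w : V} :
    (Kd K x0 y0).Adj v w ↔ K.Adj v w ∧ s(v, w) ≠ s(x0, y0) := by
  simp [SimpleGraph.deleteEdges_adj]

theorem BL8_cnt {V : Type} (X : Finset V) (P Q : V → Prop) :
    (X.filter fun x => P x).card + (X.filter fun x => Q x).card =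
      (X.filter fun x => ¬ (P x ↔ Q x)).card + 2 * (X.filter fun x => P x ∧ Q x).card := by
  simp only [Finset.card_filter, Finset.mul_sum, ← Finset.sum_add_distrib]
  refine Finset.sum_congr rfl fun x _ => ?_
  by_cases h1 : P x <;> by_cases h2 : Q x <;> simp [h1, h2]

theorem BL8_kcl {V : Type} {G : SimpleGraph V} {c : Sym2 V → ℕ} {i j : ℕ} {S : Finset V}
    (h : ∀ v w, G.Adj v w → (c s(v, w) = i ∨ c s(v, w) = j) → v ∈ S → w ∈ S) : Kcl G c i j S :=
  fun v w hvw hc => ⟨h v w hvw hc, fun hw => h w v hvw.symm (by rwa [Sym2.eq_swap]) hw⟩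

/-- the effect of an exchange on the parities -/
theorem BL8_swap (hKSW : KSW_stmt) {V : Type} [Fintype V] {G : SimpleGraph V} {D : ℕ}
    {c : Sym2 V → ℕ} {i j : ℕ} {S : Finset V} (X : Finset V) (hc : PEC G D c) (hi : i < D)
    (hj : j < D) (hS : Kcl G c i j S) :
    (nX G (ksw c i j S) X i) % 2 = (nX G c X i +
      (X.filter fun x => x ∈ S ∧ ¬ (has G c x i ↔ has G c x j)).card) % 2 ∧
    (nX G (ksw c i j S) X j) % 2 = (nX G c X j +
      (X.filter fun x => x ∈ S ∧ ¬ (has G c x i ↔ has G c x j)).card) % 2 ∧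
    ∀ k, k ≠ i → k ≠ j → nX G (ksw c i j S) X k = nX G c X k := by
  obtain ⟨k1, k2, k3, k4⟩ := hKSW V G D c i j S hc hi hj hS
  refine ⟨?_, ?_, ?_⟩
  · have h1 := BL8_cnt X (fun x => has G (ksw c i j S) x i) (fun x => has G c x i)
    have h2 : (X.filter fun x => ¬ (has G (ksw c i j S) x i ↔ has G c x i)) =
        X.filter fun x => x ∈ S ∧ ¬ (has G c x i ↔ has G c x j) := by
      ext x
      simp only [Finset.mem_filter]
      by_cases hx : x ∈ S
      · rw [(k2 x hx).1]
        tauto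
      · rw [k3 x hx]
        tauto
    rw [h2] at h1
    unfold nX
    omega
  · have h1 := BL8_cnt X (fun x => has G (ksw c i j S) x j) (fun x => has G c x j)
    have h2 : (X.filter fun x => ¬ (has G (ksw c i j S) x j ↔ has G c x j)) =
        X.filter fun x => x ∈ S ∧ ¬ (has G c x i ↔ has G c x j) := by
      ext x
      simp only [Finset.mem_filter]
      by_cases hx : x ∈ S
      · rw [(k2 x hx).2]
        tauto
      · rw [k3 x hx]
        tauto
    rw [h2] at h1
    unfold nX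
    omega
  · intro k hk1 hk2
    unfold nX
    congr 1
    ext x
    simp only [Finset.mem_filter, k4 x k hk1 hk2]

theorem BL8_has {V : Type} {K : SimpleGraph V} {x0 y0 : V} {c : Sym2 V → ℕ} {γ : ℕ}
    (hadj : K.Adj x0 y0) (v : V) (i : ℕ) :
    has K (Function.update c s(x0, y0) γ) v i ↔
      has (Kd K x0 y0) c v i ∨ ((v = x0 ∨ v = y0) ∧ i = γ) := by
  constructor
  · rintro ⟨w, hw, hc⟩
    by_cases h : s(v, w) = s(x0, y0)
    · right
      rw [h, Function.update_self] at hc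
      refine ⟨?_, hc.symm⟩
      rcases Sym2.eq_iff.1 h with h' | h'
      · exact Or.inl h'.1
      · exact Or.inr h'.1
    · left
      rw [Function.update_of_ne h] at hc
      exact ⟨w, BL8_kd.2 ⟨hw, h⟩, hc⟩
  · rintro (⟨w, hw, hc⟩ | ⟨h | h, rfl⟩)
    · obtain ⟨hw1, hw2⟩ := BL8_kd.1 hw
      exact ⟨w, hw1, by rw [Function.update_of_ne hw2]; exact hc⟩
    · subst h
      exact ⟨y0, hadj, by rw [Function.update_self]⟩
    · subst h
      exact ⟨x0, hadj.symm, by rw [Sym2.eq_swap, Function.update_self]⟩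

theorem BL8_pec {V : Type} {K : SimpleGraph V} {D : ℕ} {x0 y0 : V} {c : Sym2 V → ℕ} {γ : ℕ}
    (hc : PEC (Kd K x0 y0) D c) (hγ : γ < D)
    (h1 : ¬ has (Kd K x0 y0) c x0 γ) (h2 : ¬ has (Kd K x0 y0) c y0 γ) :
    PEC K D (Function.update c s(x0, y0) γ) := by
  have hno : ∀ v w w', K.Adj v w → K.Adj v w' → s(v, w) = s(x0, y0) → s(v, w') ≠ s(x0, y0) →
      c s(v, w') ≠ γ := by
    intro v w w' hw hw' he hne hcc
    have hv : v = x0 ∨ v = y0 := by
      rcases Sym2.eq_iff.1 he with h' | h'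
      · exact Or.inl h'.1
      · exact Or.inr h'.1
    rcases hv with rfl | rfl
    · exact h1 ⟨w', BL8_kd.2 ⟨hw', hne⟩, hcc⟩
    · exact h2 ⟨w', BL8_kd.2 ⟨hw', hne⟩, hcc⟩
  refine ⟨?_, ?_⟩
  · intro v w hvw
    by_cases h : s(v, w) = s(x0, y0)
    · rw [h, Function.update_self]
      exact hγ
    · rw [Function.update_of_ne h]
      exact hc.1 v w (BL8_kd.2 ⟨hvw, h⟩)
  · intro v w w' hw hw' he
    by_cases h : s(v, w) = s(x0, y0)
    · by_cases h' : s(v, w') = s(x0, y0)
      · exact Sym2.congr_right.1 (h.trans h'.symm)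
      · rw [h, Function.update_self, Function.update_of_ne h'] at he
        exact absurd he.symm (hno v w w' hw hw' h h')
    · by_cases h' : s(v, w') = s(x0, y0)
      · rw [h', Function.update_self, Function.update_of_ne h] at he
        exact absurd he (hno v w' w hw' hw h' h)
      · rw [Function.update_of_ne h, Function.update_of_ne h'] at he
        exact hc.2 v w w' (BL8_kd.2 ⟨hw, h⟩) (BL8_kd.2 ⟨hw', h'⟩) he

/-- the last step: the edge is coloured and two colours are exchanged -/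
theorem BL8_fin (hKSW : KSW_stmt) {V : Type} [Fintype V] {K : SimpleGraph V} {X : Finset V}
    {D p : ℕ} {x0 y0 : V} {c : Sym2 V → ℕ} {κ γ : ℕ} (hx0 : x0 ∈ X) (hy0 : y0 ∉ X)
    (hadj : K.Adj x0 y0) (hc : PEC (Kd K x0 y0) D c) (hκ : κ < D) (hγ : γ < D) (hκγ : κ ≠ γ)
    (h1 : ¬ has (Kd K x0 y0) c x0 γ) (h2 : ¬ has (Kd K x0 y0) c y0 γ)
    (hpar : ∀ i < D, i ≠ κ → nX (Kd K x0 y0) c X i % 2 = p % 2)
    (hbad : nX (Kd K x0 y0) c X κ % 2 ≠ p % 2) (T : Finset V)
    (hT : Kcl K (Function.update c s(x0, y0) γ) κ γ T) (w : V) (hw : w ∈ X)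
    (hwT : ∀ x ∈ X, x ∈ T ↔ x = w)
    (hw1 : ¬ (has K (Function.update c s(x0, y0) γ) w κ ↔
      has K (Function.update c s(x0, y0) γ) w γ)) : GoodC K X D p := by
  have hp3 := BL8_pec hc hγ h1 h2
  set c₃ := Function.update c s(x0, y0) γ with hc₃
  obtain ⟨n1, n2, n3⟩ := BL8_swap hKSW X hp3 hκ hγ hT
  have hone : (X.filter fun x => x ∈ T ∧ ¬ (has K c₃ x κ ↔ has K c₃ x γ)).card = 1 := by
    rw [Finset.card_eq_one]
    refine ⟨w, ?_⟩
    ext x
    simp only [Finset.mem_filter, Finset.mem_singleton]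
    constructor
    · rintro ⟨hx, hxT, -⟩
      exact (hwT x hx).1 hxT
    · rintro rfl
      exact ⟨hw, (hwT x hw).2 rfl, hw1⟩
  have hn : ∀ i, i ≠ γ → nX K c₃ X i = nX (Kd K x0 y0) c X i := by
    intro i hi
    unfold nX
    congr 1
    ext x
    simp only [Finset.mem_filter, hc₃, BL8_has hadj]
    tauto
  have hnγ : nX K c₃ X γ = nX (Kd K x0 y0) c X γ + 1 := by
    unfold nX
    have h3 : (X.filter fun x => has K c₃ x γ) =
        insert x0 (X.filter fun x => has (Kd K x0 y0) c x γ) := by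
      ext x
      simp only [Finset.mem_filter, Finset.mem_insert, hc₃, BL8_has hadj]
      constructor
      · rintro ⟨hx, h | ⟨h | h, -⟩⟩
        · exact Or.inr ⟨hx, h⟩
        · exact Or.inl h
        · rw [h] at hx
          exact absurd hx hy0
      · rintro (h | ⟨hx, h⟩)
        · rw [h]
          exact ⟨hx0, Or.inr ⟨Or.inl rfl, trivial⟩⟩
        · exact ⟨hx, Or.inl h⟩
    rw [h3, Finset.card_insert_of_notMem]
    simp only [Finset.mem_filter, not_and]
    exact fun _ => h1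
  refine ⟨ksw c₃ κ γ T, (hKSW V K D c₃ κ γ T hp3 hκ hγ hT).1, ?_⟩
  intro i hi
  rw [hone] at n1 n2
  by_cases e1 : i = κ
  · subst e1
    rw [hn i hκγ] at n1
    omega
  by_cases e2 : i = γ
  · subst e2
    rw [hnγ] at n2
    have := hpar i hi (Ne.symm hκγ)
    omega
  · rw [n3 i e1 e2, hn i e2]
    exact hpar i hi e1

/-- the set for the first exchange -/
theorem BL8_exS (hKCO : KCO_stmt) {V : Type} [Fintype V] {K : SimpleGraph V} {X : Finset V}
    {D p : ℕ} {x0 y0 : V} {c : Sym2 V → ℕ} {α κ : ℕ} (hind : ∀ v ∈ X, ∀ w ∈ X, ¬ K.Adj v w)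
    (hx0 : x0 ∈ X) (hb : BCo K X D p x0 y0 c α) (hκ : κ < D) (hκα : κ ≠ α) :
    ∃ S : Finset V, Kcl (Kd K x0 y0) c κ α S ∧
      (X.filter fun x => x ∈ S ∧
        ¬ (has (Kd K x0 y0) c x κ ↔ has (Kd K x0 y0) c x α)).card % 2 = 1 ∧
      (S.filter fun z => z ∉ X ∧
        ¬ (has (Kd K x0 y0) c z κ ↔ has (Kd K x0 y0) c z α)).card ≤ 1 ∧
      ∀ z, (Kd K x0 y0).Adj x0 z → c s(x0, z) = κ → ¬ has (Kd K x0 y0) c z α → z ∈ S := by
  by_cases h : ∃ z, (Kd K x0 y0).Adj x0 z ∧ c s(x0, z) = κ ∧ ¬ has (Kd K x0 y0) c z α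
  · obtain ⟨z, hz, hzc, hzα⟩ := h
    have hzX : z ∉ X := fun h' => hind x0 hx0 z h' (BL8_kd.1 hz).1
    have hx0κ : has (Kd K x0 y0) c x0 κ := ⟨z, hz, hzc⟩
    refine ⟨{x0, z}, ?_, ?_, ?_, ?_⟩
    · refine BL8_kcl fun v w hvw hcol hv => ?_
      rw [Finset.mem_insert, Finset.mem_singleton] at hv ⊢
      rcases hv with rfl | rfl
      · rcases hcol with hcol | hcol
        · exact Or.inr (hb.pec.2 v w z hvw hz (hcol.trans hzc.symm))
        · exact absurd ⟨w, hvw, hcol⟩ hb.mis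
      · rcases hcol with hcol | hcol
        · refine Or.inl (hb.pec.2 v w x0 hvw hz.symm (hcol.trans ?_))
          rw [Sym2.eq_swap]
          exact hzc.symm
        · exact absurd ⟨w, hvw, hcol⟩ hzα
    · have : (X.filter fun x => x ∈ ({x0, z} : Finset V) ∧
          ¬ (has (Kd K x0 y0) c x κ ↔ has (Kd K x0 y0) c x α)) = {x0} := by
        ext x
        simp only [Finset.mem_filter, Finset.mem_insert, Finset.mem_singleton]
        constructor
        · rintro ⟨hx, h' | h', -⟩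
          · exact h'
          · rw [h'] at hx
            exact absurd hx hzX
        · rintro rfl
          exact ⟨hx0, Or.inl rfl, fun h' => hb.mis (h'.1 hx0κ)⟩
      rw [this, Finset.card_singleton]
    · refine (Finset.card_le_card (t := {z}) ?_).trans (by simp)
      intro x hx
      rw [Finset.mem_filter, Finset.mem_insert, Finset.mem_singleton] at hx
      rw [Finset.mem_singleton]
      rcases hx.1 with h' | h'
      · rw [h'] at hx
        exact absurd hx0 hx.2.1
      · exact h'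
    · intro z' hz' hzc' _
      rw [Finset.mem_insert, Finset.mem_singleton]
      exact Or.inr (hb.pec.2 x0 z' z hz' hz (hzc'.trans hzc.symm))
  · obtain ⟨S, hS1, hS2, hS3, hS4⟩ := hKCO V (Kd K x0 y0) D c κ α hb.pec hκα
    have hodd : (X.filter fun x =>
        ¬ (has (Kd K x0 y0) c x κ ↔ has (Kd K x0 y0) c x α)).card % 2 = 1 := by
      have h1 := BL8_cnt X (fun x => has (Kd K x0 y0) c x κ) (fun x => has (Kd K x0 y0) c x α)
      have h2 := hb.par κ hκ hκα
      have h3 := hb.bad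
      unfold nX at h2 h3
      omega
    have hex : ∃ v, ((X.filter fun x =>
        ¬ (has (Kd K x0 y0) c x κ ↔ has (Kd K x0 y0) c x α)).filter fun x => S x = S v).card % 2
          = 1 := by
      by_contra hno
      have h1 : (X.filter fun x =>
          ¬ (has (Kd K x0 y0) c x κ ↔ has (Kd K x0 y0) c x α)).card =
          ∑ T ∈ Finset.univ.image S, ((X.filter fun x =>
            ¬ (has (Kd K x0 y0) c x κ ↔ has (Kd K x0 y0) c x α)).filter fun x => S x = T).card :=
        Finset.card_eq_sum_card_fiberwise (fun x _ => by simp)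
      have h2 : 2 ∣ ∑ T ∈ Finset.univ.image S, ((X.filter fun x =>
            ¬ (has (Kd K x0 y0) c x κ ↔ has (Kd K x0 y0) c x α)).filter fun x => S x = T).card := by
        apply Finset.dvd_sum
        intro T hT
        obtain ⟨v, -, rfl⟩ := Finset.mem_image.1 hT
        rcases Nat.mod_two_eq_zero_or_one ((X.filter fun x =>
          ¬ (has (Kd K x0 y0) c x κ ↔ has (Kd K x0 y0) c x α)).filter
            fun x => S x = S v).card with h | h
        · exact Nat.dvd_of_mod_eq_zero h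
        · exact absurd ⟨v, h⟩ hno
      omega
    obtain ⟨v, hv⟩ := hex
    have hcount : (X.filter fun x => x ∈ S v ∧
        ¬ (has (Kd K x0 y0) c x κ ↔ has (Kd K x0 y0) c x α)).card % 2 = 1 := by
      rw [← hv]
      congr 2
      ext x
      simp only [Finset.mem_filter]
      constructor
      · rintro ⟨a, b, d⟩
        exact ⟨⟨a, d⟩, hS2 v x b⟩
      · rintro ⟨⟨a, b⟩, d⟩
        exact ⟨a, d ▸ hS1 x, b⟩
    refine ⟨S v, hS3 v, hcount, ?_, ?_⟩
    · have h5 : ((S v).filter fun z => ¬ (has (Kd K x0 y0) c z κ ↔ has (Kd K x0 y0) c z α)).card =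
          (X.filter fun x => x ∈ S v ∧
            ¬ (has (Kd K x0 y0) c x κ ↔ has (Kd K x0 y0) c x α)).card +
          ((S v).filter fun z => z ∉ X ∧
            ¬ (has (Kd K x0 y0) c z κ ↔ has (Kd K x0 y0) c z α)).card := by
        rw [← Finset.card_union_of_disjoint]
        · congr 1
          ext x
          simp only [Finset.mem_filter, Finset.mem_union]
          tauto
        · rw [Finset.disjoint_left]
          intro x hx hx'
          rw [Finset.mem_filter] at hx hx'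
          exact hx'.2.1 hx.1
      rcases hS4 v with h6 | h6 <;> omega
    · intro z hz hzc hzα
      exact absurd ⟨z, hz, hzc, hzα⟩ h

theorem BL8 (hKSW : KSW_stmt) (hKCO : KCO_stmt) (hSCN : SCN_stmt) (hBL1 : BL1_stmt)
    (hBL3 : BL3_stmt) (hBL6 : BL6_stmt) (hBL7 : BL7_stmt) : BL8_stmt := by
  intro V _ K X D p x0 y0 r B c α κ hH hG hM hκ hκα
  by_contra hcon
  push Not at hcon
  have hb := hM.bco
  obtain ⟨hy0α, -⟩ := hBL1 V K X D p x0 y0 r B c α hH hG hb
  obtain ⟨hαΓ, -, -⟩ := hBL3 V K X D p x0 y0 r B c α hH hG hb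
  obtain ⟨hΓs, hΓz⟩ := hBL6 V K X D p x0 y0 r B c α hH hG hM
  obtain ⟨-, hQc, -⟩ := hBL7 V K X D p x0 y0 r B c α hH hG hM
  obtain ⟨S, hS1, hS2, hS3, hS4⟩ := BL8_exS hKCO hH.ind hH.x0X hb hκ hκα
  obtain ⟨hn1, hn2, hn3⟩ := BL8_swap hKSW X hb.pec hκ hb.lt hS1
  obtain ⟨hp2, k2, k3, k4⟩ := hKSW V (Kd K x0 y0) D c κ α S hb.pec hκ hb.lt hS1
  have hE1 : ∀ v w, (Kd K x0 y0).Adj v w → v ∉ S → ksw c κ α S s(v, w) = c s(v, w) := by
    intro v w hvw hv
    unfold ksw
    split_ifs with h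
    · obtain ⟨u, hu, huS⟩ := h
      rcases Sym2.mem_iff.1 hu with rfl | rfl
      · exact absurd huS hv
      · have h1 : c s(v, u) ≠ κ := fun h' => hv ((hS1 v u hvw (Or.inl h')).2 huS)
        have h2 : c s(v, u) ≠ α := fun h' => hv ((hS1 v u hvw (Or.inr h')).2 huS)
        exact Equiv.swap_apply_of_ne_of_ne h1 h2
    · rfl
  have hE2 : ∀ v w γ, γ ≠ κ → γ ≠ α → ksw c κ α S s(v, w) = γ → c s(v, w) = γ := by
    intro v w γ h1 h2 h3
    unfold ksw at h3
    split_ifs at h3 with h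
    · by_cases e1 : c s(v, w) = κ
      · rw [e1, Equiv.swap_apply_left] at h3
        exact absurd h3.symm h2
      · by_cases e2 : c s(v, w) = α
        · rw [e2, Equiv.swap_apply_right] at h3
          exact absurd h3.symm h1
        · rwa [Equiv.swap_apply_of_ne_of_ne e1 e2] at h3
    · exact h3
  have hpar2 : ∀ i < D, i ≠ κ → nX (Kd K x0 y0) (ksw c κ α S) X i % 2 = p % 2 := by
    intro i hi hiκ
    by_cases e : i = α
    · subst e
      have := hb.bad
      omega
    · rw [hn3 i hiκ e]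
      exact hb.par i hi e
  have hbad2 : nX (Kd K x0 y0) (ksw c κ α S) X κ % 2 ≠ p % 2 := by
    have := hb.par κ hκ hκα
    omega
  have hy0Q : y0 ∈ Qs K X x0 y0 c α := by
    unfold Qs
    rw [Finset.mem_filter]
    exact ⟨Finset.mem_univ _, hH.y0Y, hy0α⟩
  have hGst : ∀ γ ∈ Gst K X D x0 y0 c α, γ < D ∧ ¬ has (Kd K x0 y0) c x0 γ ∧
      ¬ has (Kd K x0 y0) c y0 γ ∧
      (∀ v w, (Kd K x0 y0).Adj v w → v ∉ X → w ∉ X → c s(v, w) ≠ γ) ∧
      (∀ x ∈ X, has (Kd K x0 y0) c x α → ¬ has (Kd K x0 y0) c x γ) ∧ γ ≠ α := by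
    intro γ hγ
    have h1 := Finset.mem_filter.1 hγ
    have h2 := Finset.mem_filter.1 h1.1
    refine ⟨Finset.mem_range.1 h2.1, h2.2.1, h2.2.2.1, h2.2.2.2, h1.2, ?_⟩
    rintro rfl
    exact hαΓ h1.1
  have hnotS : ∀ z, z ∉ X → ¬ (has (Kd K x0 y0) c z κ ↔ has (Kd K x0 y0) c z α) → z ∈ S →
      z ∈ S.filter fun z => z ∉ X ∧
        ¬ (has (Kd K x0 y0) c z κ ↔ has (Kd K x0 y0) c z α) := by
    intro z h1 h2 h3
    rw [Finset.mem_filter]
    exact ⟨h3, h1, h2⟩
  -- edges at a vertex different from the ends of the special edge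
  have hedge : ∀ γ v u, v ≠ x0 → v ≠ y0 → K.Adj v u →
      (Kd K x0 y0).Adj v u ∧
        Function.update (ksw c κ α S) s(x0, y0) γ s(v, u) = ksw c κ α S s(v, u) := by
    intro γ v u h1 h2 h3
    have h4 : s(v, u) ≠ s(x0, y0) := by
      intro h
      rcases Sym2.eq_iff.1 h with h' | h'
      · exact h1 h'.1
      · exact h2 h'.1
    exact ⟨BL8_kd.2 ⟨h3, h4⟩, Function.update_of_ne h4 _ _⟩
  have hhas : ∀ γ v i, v ≠ x0 → v ≠ y0 →
      (has K (Function.update (ksw c κ α S) s(x0, y0) γ) v i ↔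
        has (Kd K x0 y0) (ksw c κ α S) v i) := by
    intro γ v i h1 h2
    rw [BL8_has hH.adj]
    tauto
  -- type A
  have typeA : ∀ z x, z ∉ X → ¬ has (Kd K x0 y0) c z α → z ∉ S → (Kd K x0 y0).Adj z x →
      c s(z, x) = κ → x ∈ X → False := by
    intro z x hzX hzα hzS hzx hcx hxX
    have hzy : z ≠ y0 := fun h => hzα (h ▸ hy0α)
    have hzx0 : z ≠ x0 := fun h => hzX (h ▸ hH.x0X)
    have hxx0 : x ≠ x0 := by
      rintro rfl
      exact hzS (hS4 z hzx.symm (by rw [Sym2.eq_swap]; exact hcx) hzα)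
    have hxy0 : x ≠ y0 := fun h => hH.y0Y (h ▸ hxX)
    have hxS : x ∉ S := fun h => hzS ((hS1 z x hzx (Or.inl hcx)).2 h)
    have hzκ : has (Kd K x0 y0) c z κ := ⟨x, hzx, hcx⟩
    have hxκ : has (Kd K x0 y0) c x κ := ⟨z, hzx.symm, by rw [Sym2.eq_swap]; exact hcx⟩
    obtain ⟨γ, hγ, hγx⟩ : ∃ γ ∈ Gst K X D x0 y0 c α, ¬ has (Kd K x0 y0) c x γ := by
      by_contra hno
      push Not at hno
      have h1 : Gst K X D x0 y0 c α ⊆ (Finset.range D).filter fun i => has (Kd K x0 y0) c x i := by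
        intro γ hγ
        rw [Finset.mem_filter, Finset.mem_range]
        exact ⟨(hGst γ hγ).1, hno γ hγ⟩
      have h2 := Finset.card_le_card h1
      rw [hSCN V (Kd K x0 y0) D c hb.pec x] at h2
      have h3 : dg (Kd K x0 y0) x ≤ dg K x := by
        unfold dg dgs
        refine Finset.card_le_card fun u hu => ?_
        simp only [Finset.mem_filter] at hu
        exact Finset.mem_filter.2 ⟨hu.1, (BL8_kd.1 hu.2).1⟩
      have h4 := hH.degx x hxX
      have h5 : ((Gst K X D x0 y0 c α).card : ℝ) ≤ dg K x := by exact_mod_cast h2.trans h3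
      have h6 := hH.rB
      have h7 := hH.B1
      nlinarith
    obtain ⟨g1, g2, g3, g4, g5, g6⟩ := hGst γ hγ
    have hzγ : ¬ has (Kd K x0 y0) c z γ := fun h => hzα ((hΓz γ hγ z hzX hzy).1 h)
    have hγκ : γ ≠ κ := fun h => hzγ (h ▸ hzκ)
    apply hG
    refine BL8_fin hKSW hH.x0X hH.y0Y hH.adj hp2 hκ g1 (Ne.symm hγκ)
      (fun h => g2 ((k4 x0 γ hγκ g6).1 h)) (fun h => g3 ((k4 y0 γ hγκ g6).1 h)) hpar2 hbad2
      {z, x} ?_ x hxX ?_ ?_
    · refine BL8_kcl fun v u hvu hcol hv => ?_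
      rw [Finset.mem_insert, Finset.mem_singleton] at hv ⊢
      rcases hv with rfl | rfl
      · obtain ⟨a1, a2⟩ := hedge γ v u hzx0 hzy hvu
        rw [a2, hE1 v u a1 hzS] at hcol
        rcases hcol with hcol | hcol
        · exact Or.inr (hb.pec.2 v u x a1 hzx (hcol.trans hcx.symm))
        · exact absurd ⟨u, a1, hcol⟩ hzγ
      · obtain ⟨a1, a2⟩ := hedge γ v u hxx0 hxy0 hvu
        rw [a2, hE1 v u a1 hxS] at hcol
        rcases hcol with hcol | hcol
        · refine Or.inl (hb.pec.2 v u z a1 hzx.symm (hcol.trans ?_))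
          rw [Sym2.eq_swap]
          exact hcx.symm
        · exact absurd ⟨u, a1, hcol⟩ hγx
    · intro x' hx'
      rw [Finset.mem_insert, Finset.mem_singleton]
      constructor
      · rintro (rfl | h)
        · exact absurd hx' hzX
        · exact h
      · exact Or.inr
    · rw [hhas γ x κ hxx0 hxy0, hhas γ x γ hxx0 hxy0, k3 x hxS, k3 x hxS]
      exact fun h => hγx (h.1 hxκ)
  -- types B and C
  have typeBC : ∀ z, nX (Kd K x0 y0) c X κ < (Gst K X D x0 y0 c α).card → z ∉ X →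
      has (Kd K x0 y0) c z α → z ≠ y0 → z ∉ S →
      (∀ u, (Kd K x0 y0).Adj z u → c s(z, u) = κ → u ∉ X ∧ ¬ has (Kd K x0 y0) c u α) →
      False := by
    intro z hlt hzX hzα hzy hzS hN
    have hzx0 : z ≠ x0 := fun h => hzX (h ▸ hH.x0X)
    have hw : ∀ γ : ℕ, ∃ w, γ ∈ Gst K X D x0 y0 c α → (Kd K x0 y0).Adj z w ∧ c s(z, w) = γ := by
      intro γ
      by_cases hγ : γ ∈ Gst K X D x0 y0 c α
      · obtain ⟨w, h1, h2⟩ := (hΓz γ hγ z hzX hzy).2 hzα
        exact ⟨w, fun _ => ⟨h1, h2⟩⟩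
      · exact ⟨z, fun h => absurd h hγ⟩
    choose f hf using hw
    have hfX : ∀ γ ∈ Gst K X D x0 y0 c α, f γ ∈ X := by
      intro γ hγ
      by_contra h
      exact (hGst γ hγ).2.2.2.1 z (f γ) (hf γ hγ).1 hzX h (hf γ hγ).2
    obtain ⟨γ, hγ, hγw⟩ : ∃ γ ∈ Gst K X D x0 y0 c α, ¬ has (Kd K x0 y0) c (f γ) κ := by
      by_contra hno
      push Not at hno
      have h1 : (Gst K X D x0 y0 c α).card ≤
          (X.filter fun x => has (Kd K x0 y0) c x κ).card := by
        apply Finset.card_le_card_of_injOn f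
        · intro γ hγ
          rw [Finset.mem_coe, Finset.mem_filter]
          exact ⟨hfX γ hγ, hno γ hγ⟩
        · intro γ hγ γ' hγ' he
          have h2 := (hf γ hγ).2
          have h3 := (hf γ' hγ').2
          rw [he] at h2
          exact h2.symm.trans h3
      unfold nX at hlt
      omega
    obtain ⟨g1, g2, g3, g4, g5, g6⟩ := hGst γ hγ
    obtain ⟨hzw, hcw⟩ := hf γ hγ
    have hwX := hfX γ hγ
    set w := f γ with hwdef
    have hwγ : has (Kd K x0 y0) c w γ := ⟨z, hzw.symm, by rw [Sym2.eq_swap]; exact hcw⟩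
    have hwα : ¬ has (Kd K x0 y0) c w α := fun h => g5 w hwX h hwγ
    have hγκ : γ ≠ κ := by
      rintro rfl
      exact (hN w hzw hcw).1 hwX
    have hwx0 : w ≠ x0 := fun h => g2 (h ▸ hwγ)
    have hwy0 : w ≠ y0 := fun h => hH.y0Y (h ▸ hwX)
    have hwκ2 : ¬ has (Kd K x0 y0) (ksw c κ α S) w κ := by
      intro h
      by_cases hwS : w ∈ S
      · exact hwα ((k2 w hwS).1.1 h)
      · exact hγw ((k3 w hwS κ).1 h)
    apply hG
    refine BL8_fin hKSW hH.x0X hH.y0Y hH.adj hp2 hκ g1 (Ne.symm hγκ)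
      (fun h => g2 ((k4 x0 γ hγκ g6).1 h)) (fun h => g3 ((k4 y0 γ hγκ g6).1 h)) hpar2 hbad2
      (Finset.univ.filter fun v => v = z ∨ v = w ∨ ((Kd K x0 y0).Adj z v ∧ c s(z, v) = κ))
      ?_ w hwX ?_ ?_
    · refine BL8_kcl fun v u hvu hcol hv => ?_
      simp only [Finset.mem_filter, Finset.mem_univ, true_and] at hv ⊢
      rcases hv with rfl | h | ⟨hv1, hv2⟩
      · obtain ⟨a1, a2⟩ := hedge γ v u hzx0 hzy hvu
        rw [a2, hE1 v u a1 hzS] at hcol
        rcases hcol with hcol | hcol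
        · exact Or.inr (Or.inr ⟨a1, hcol⟩)
        · exact Or.inr (Or.inl (hb.pec.2 v u w a1 hzw (hcol.trans hcw.symm)))
      · rw [h] at hvu hcol
        obtain ⟨a1, a2⟩ := hedge γ w u hwx0 hwy0 hvu
        rw [a2] at hcol
        rcases hcol with hcol | hcol
        · exact absurd ⟨u, a1, hcol⟩ hwκ2
        · have := hE2 w u γ hγκ g6 hcol
          refine Or.inl (hb.pec.2 w u z a1 hzw.symm (this.trans ?_))
          rw [Sym2.eq_swap]
          exact hcw.symm
      · obtain ⟨b1, b2⟩ := hN v hv1 hv2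
        have hvx0 : v ≠ x0 := fun h => b1 (h ▸ hH.x0X)
        have hvy0 : v ≠ y0 := fun h => b2 (h ▸ hy0α)
        have hvS : v ∉ S := fun h => hzS ((hS1 z v hv1 (Or.inl hv2)).2 h)
        obtain ⟨a1, a2⟩ := hedge γ v u hvx0 hvy0 hvu
        rw [a2, hE1 v u a1 hvS] at hcol
        rcases hcol with hcol | hcol
        · refine Or.inl (hb.pec.2 v u z a1 hv1.symm (hcol.trans ?_))
          rw [Sym2.eq_swap]
          exact hv2.symm
        · exact absurd ((hΓz γ hγ v b1 hvy0).1 ⟨u, a1, hcol⟩) b2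
    · intro x' hx'
      simp only [Finset.mem_filter, Finset.mem_univ, true_and]
      constructor
      · rintro (h | h | ⟨h1, h2⟩)
        · exact absurd hx' (h ▸ hzX)
        · exact h
        · exact absurd hx' (hN x' h1 h2).1
      · exact fun h => Or.inr (Or.inl h)
    · rw [hhas γ w κ hwx0 hwy0, hhas γ w γ hwx0 hwy0, k4 w γ hγκ g6]
      exact fun h => hwκ2 (h.2 hwγ)
  -- violators have exactly one of the two colours
  by_cases hlt : nX (Kd K x0 y0) c X κ < (Gst K X D x0 y0 c α).card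
  · have hV : ∀ z ∈ Vio K X x0 y0 c α κ, z ∉ X ∧
        ¬ (has (Kd K x0 y0) c z κ ↔ has (Kd K x0 y0) c z α) ∧
        ((has (Kd K x0 y0) c z α ∧ ¬ has (Kd K x0 y0) c z κ) ∨
          (¬ has (Kd K x0 y0) c z α ∧ ∃ w, w ∈ X ∪ Qs K X x0 y0 c α ∧ (Kd K x0 y0).Adj z w ∧
            c s(z, w) = κ)) := by
      intro z hz
      unfold Vio at hz
      rw [Finset.mem_union, Finset.mem_filter, Finset.mem_filter] at hz
      rcases hz with ⟨-, h1, h2⟩ | ⟨-, h1, h2, w, h3, h4, h5⟩
      · unfold Qs at h1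
        rw [Finset.mem_filter] at h1
        exact ⟨h1.2.1, fun h => h2 (h.2 h1.2.2), Or.inl ⟨h1.2.2, h2⟩⟩
      · have h6 : ¬ has (Kd K x0 y0) c z α := by
          intro h
          apply h2
          unfold Qs
          rw [Finset.mem_filter]
          exact ⟨Finset.mem_univ _, h1, h⟩
        exact ⟨h1, fun h => h6 (h.1 ⟨w, h4, h5⟩), Or.inr ⟨h6, w, h3, h4, h5⟩⟩
    obtain ⟨z, hz, hzS, hzy, hzn⟩ : ∃ z ∈ Vio K X x0 y0 c α κ, z ∉ S ∧ z ≠ y0 ∧
        ¬ (¬ has (Kd K x0 y0) c z α ∧ (Kd K x0 y0).Adj z y0 ∧ c s(z, y0) = κ) := by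
      by_contra hno
      push Not at hno
      have h1 : Vio K X x0 y0 c α κ ⊆ (S.filter fun z => z ∉ X ∧
          ¬ (has (Kd K x0 y0) c z κ ↔ has (Kd K x0 y0) c z α)) ∪
          ((Vio K X x0 y0 c α κ).filter fun z => z = y0 ∨
            (¬ has (Kd K x0 y0) c z α ∧ (Kd K x0 y0).Adj z y0 ∧ c s(z, y0) = κ)) := by
        intro z hz
        rw [Finset.mem_union]
        by_cases hzS : z ∈ S
        · exact Or.inl (hnotS z (hV z hz).1 (hV z hz).2.1 hzS)
        · right
          rw [Finset.mem_filter]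
          refine ⟨hz, ?_⟩
          by_cases hzy : z = y0
          · exact Or.inl hzy
          · exact Or.inr (hno z hz hzS hzy)
      have h2 : ((Vio K X x0 y0 c α κ).filter fun z => z = y0 ∨
            (¬ has (Kd K x0 y0) c z α ∧ (Kd K x0 y0).Adj z y0 ∧ c s(z, y0) = κ)).card ≤ 1 := by
        rw [Finset.card_le_one]
        have hy : y0 ∈ Vio K X x0 y0 c α κ → ¬ has (Kd K x0 y0) c y0 κ := by
          intro h
          rcases (hV y0 h).2.2 with h' | h'
          · exact h'.2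
          · exact absurd hy0α h'.1
        intro a ha b hb'
        rw [Finset.mem_filter] at ha hb'
        obtain ⟨ha1, ha2⟩ := ha
        obtain ⟨hb1, hb2⟩ := hb'
        rcases ha2 with rfl | ⟨-, ha3, ha4⟩
        · rcases hb2 with rfl | ⟨-, hb3, hb4⟩
          · rfl
          · exact absurd ⟨b, hb3.symm, by rw [Sym2.eq_swap]; exact hb4⟩ (hy ha1)
        · rcases hb2 with rfl | ⟨-, hb3, hb4⟩
          · exact absurd ⟨a, ha3.symm, by rw [Sym2.eq_swap]; exact ha4⟩ (hy hb1)
          · refine hb.pec.2 y0 a b ha3.symm hb3.symm ?_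
            rw [Sym2.eq_swap, ha4, Sym2.eq_swap, hb4]
      have h3 := Finset.card_le_card h1
      have h4 := Finset.card_union_le (S.filter fun z => z ∉ X ∧
          ¬ (has (Kd K x0 y0) c z κ ↔ has (Kd K x0 y0) c z α))
          ((Vio K X x0 y0 c α κ).filter fun z => z = y0 ∨
            (¬ has (Kd K x0 y0) c z α ∧ (Kd K x0 y0).Adj z y0 ∧ c s(z, y0) = κ))
      omega
    obtain ⟨hzX, -, hcase⟩ := hV z hz
    rcases hcase with ⟨h1, h2⟩ | ⟨h1, w, h3, h4, h5⟩
    · exact typeBC z hlt hzX h1 hzy hzS fun u hu1 hu2 => absurd ⟨u, hu1, hu2⟩ h2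
    · rw [Finset.mem_union] at h3
      rcases h3 with h3 | h3
      · exact typeA z w hzX h1 hzS h4 h5 h3
      · unfold Qs at h3
        rw [Finset.mem_filter] at h3
        have hwy : w ≠ y0 := by
          rintro rfl
          exact hzn ⟨h1, h4, h5⟩
        have hwS : w ∉ S := fun h => hzS ((hS1 z w h4 (Or.inl h5)).2 h)
        refine typeBC w hlt h3.2.1 h3.2.2 hwy hwS fun u hu1 hu2 => ?_
        have : u = z := by
          refine hb.pec.2 w u z hu1 h4.symm (hu2.trans ?_)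
          rw [Sym2.eq_swap]
          exact h5.symm
        rw [this]
        exact ⟨hzX, h1⟩
  · push Not at hlt
    have hw : ∀ x : V, ∃ z, x ∈ (X.filter fun x => has (Kd K x0 y0) c x κ) →
        (Kd K x0 y0).Adj x z ∧ c s(x, z) = κ := by
      intro x
      by_cases hx : x ∈ (X.filter fun x => has (Kd K x0 y0) c x κ)
      · obtain ⟨z, h1, h2⟩ := (Finset.mem_filter.1 hx).2
        exact ⟨z, fun _ => ⟨h1, h2⟩⟩
      · exact ⟨x, fun h => absurd h hx⟩
    choose f hf using hw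
    obtain ⟨x, hx, hx1, hx2⟩ : ∃ x ∈ (X.filter fun x => has (Kd K x0 y0) c x κ),
        f x ∉ Qs K X x0 y0 c α ∧ f x ∉ S := by
      by_contra hno
      push Not at hno
      have h1 : (X.filter fun x => has (Kd K x0 y0) c x κ).card ≤
          (Qs K X x0 y0 c α ∪ (S.filter fun z => z ∉ X ∧
            ¬ (has (Kd K x0 y0) c z κ ↔ has (Kd K x0 y0) c z α))).card := by
        apply Finset.card_le_card_of_injOn f
        · intro x hx
          have hx' : x ∈ (X.filter fun x => has (Kd K x0 y0) c x κ) := hx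
          rw [Finset.mem_coe, Finset.mem_union]
          by_cases hq : f x ∈ Qs K X x0 y0 c α
          · exact Or.inl hq
          · right
            have h3 := hno x hx' hq
            have h4 : f x ∉ X := fun h =>
              hH.ind x (Finset.mem_filter.1 hx').1 (f x) h (BL8_kd.1 (hf x hx').1).1
            have h5 : ¬ has (Kd K x0 y0) c (f x) α := by
              intro h
              apply hq
              unfold Qs
              rw [Finset.mem_filter]
              exact ⟨Finset.mem_univ _, h4, h⟩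
            have h6 : has (Kd K x0 y0) c (f x) κ :=
              ⟨x, (hf x hx').1.symm, by rw [Sym2.eq_swap]; exact (hf x hx').2⟩
            exact hnotS _ h4 (fun h => h5 (h.1 h6)) h3
        · intro x hx x' hx' he
          have hx1 : x ∈ (X.filter fun x => has (Kd K x0 y0) c x κ) := hx
          have hx1' : x' ∈ (X.filter fun x => has (Kd K x0 y0) c x κ) := hx'
          have h2 := hf x hx1
          have h3 := hf x' hx1'
          rw [← he] at h3
          refine hb.pec.2 (f x) x x' h2.1.symm h3.1.symm ?_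
          rw [Sym2.eq_swap, h2.2, Sym2.eq_swap, h3.2]
      have h2 := Finset.card_union_le (Qs K X x0 y0 c α) (S.filter fun z => z ∉ X ∧
            ¬ (has (Kd K x0 y0) c z κ ↔ has (Kd K x0 y0) c z α))
      have h3 : nX (Kd K x0 y0) c X κ ≤ (Qs K X x0 y0 c α).card + 1 := by
        unfold nX
        omega
      have h4 : ((Gst K X D x0 y0 c α).card : ℝ) ≤ (Qs K X x0 y0 c α).card + 1 := by
        exact_mod_cast hlt.trans h3
      have h5 := hH.rB
      have h6 := hH.B1
      nlinarith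
    have hx' := Finset.mem_filter.1 hx
    have h4 : f x ∉ X := fun h => hH.ind x hx'.1 (f x) h (BL8_kd.1 (hf x hx).1).1
    have h5 : ¬ has (Kd K x0 y0) c (f x) α := by
      intro h
      apply hx1
      unfold Qs
      rw [Finset.mem_filter]
      exact ⟨Finset.mem_univ _, h4, h⟩
    exact typeA (f x) x h4 h5 hx2 (hf x hx).1.symm (by rw [Sym2.eq_swap]; exact (hf x hx).2) hx'.1

end

end Pool.Agent.OF
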