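import Pool.Agent.helper86.OF.SpecM

/-!
# Project of (MP_c62920_co), module MA2
-/

set_option autoImplicit false

open scoped BigOperators

namespace Pool.Agent.OF

noncomputable section

open Classical

/-- the edges of `G` which are in one of the matchings -/
def MA2_in {V : Type} (G : SimpleGraph V) (q : ℕ) (M : ℕ → V → V)
    (h : ∀ i < q, ∀ v, M i (M i v) = v) : SimpleGraph V where
  Adj v w := G.Adj v w ∧ ∃ i < q, M i v = w
  symm := ⟨fun v w hvw => ⟨hvw.1.symm, by
    obtain ⟨-, i, hi, he⟩ := hvw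
    exact ⟨i, hi, by rw [← he, h i hi]⟩⟩⟩
  loopless := ⟨fun v hv => G.loopless.irrefl v hv.1⟩

/-- the edges of `G` which are in none of the matchings -/
def MA2_out {V : Type} (G : SimpleGraph V) (q : ℕ) (M : ℕ → V → V)
    (h : ∀ i < q, ∀ v, M i (M i v) = v) : SimpleGraph V where
  Adj v w := G.Adj v w ∧ ∀ i < q, M i v ≠ w
  symm := ⟨fun v w hvw => ⟨hvw.1.symm, fun i hi he => by
    refine hvw.2 i hi ?_
    rw [← he, h i hi]⟩⟩
  loopless := ⟨fun v hv => G.loopless.irrefl v hv.1⟩

theorem MA2 (hPTN : PTN_stmt) (hCOV : COV_stmt) (hCUP : CUP_stmt) (hKON : KON_stmt) :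
    MA2_stmt := by
  intro V _ G D X c T U κ A F Md c2 Rs e q M hT hF hcr hMd hO hqF he1 he2 he3 hM
  have hKG : ∀ v w, (KG G X Md Rs).Adj v w ↔
      G.Adj v w ∧ ¬ (v ∈ X \ Md ∧ w ∈ X \ Md) ∧ ¬ Rs.Adj v w := by
    intro v w
    show (outG G (X \ Md) \ Rs).Adj v w ↔ _
    rw [SimpleGraph.sdiff_adj]
    show (G.Adj v w ∧ ¬ (v ∈ X \ Md ∧ w ∈ X \ Md)) ∧ ¬ Rs.Adj v w ↔ _
    tauto
  set K := KG G X Md Rs with hK
  have hP := fun i => hPTN V K D c2 hO.pec i
  have f1 : ∀ i < q, ∀ v, M i v ≠ v → v ∈ X \ Md ∧ M i v ∈ X \ Md ∧ G.Adj v (M i v) := by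
    intro i hi v hv
    have h1 := (hM.mat i hi).2 v hv
    exact ⟨h1.2.1, h1.2.2, h1.1⟩
  have f2 : ∀ i < q, ∀ v, has K c2 v (e i) → M i v = v := by
    intro i hi v hv
    by_contra hne
    have h1 := (f1 i hi v hne).1
    refine hne ((hM.cov i hi v h1).2 ?_)
    rw [Finset.mem_filter]
    exact ⟨h1, Or.inr hv⟩
  set M' : ℕ → V → V := fun i v => if M i v = v then ptn K c2 (e i) v else M i v with hM'
  have m1 : ∀ i v, M i v = v → M' i v = ptn K c2 (e i) v := fun i v h => if_pos h
  have m2 : ∀ i v, M i v ≠ v → M' i v = M i v := fun i v h => if_neg h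
  have p1 : ∀ i v, ptn K c2 (e i) v ≠ v → K.Adj v (ptn K c2 (e i) v) ∧
      c2 s(v, ptn K c2 (e i) v) = e i := by
    intro i v hv
    have h1 := (hP (e i)).1.2 v hv
    exact ⟨h1, ((hP (e i)).2.1 v _ h1).1 rfl⟩
  have inv : ∀ i < q, ∀ v, M' i (M' i v) = v := by
    intro i hi v
    by_cases h : M i v = v
    · rw [m1 i v h]
      by_cases h2 : ptn K c2 (e i) v = v
      · rw [h2, m1 i v h, h2]
      · obtain ⟨a1, a2⟩ := p1 i v h2
        have h3 : has K c2 (ptn K c2 (e i) v) (e i) :=
          ⟨v, a1.symm, by rw [Sym2.eq_swap]; exact a2⟩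
        rw [m1 i _ (f2 i hi _ h3)]
        exact (hP (e i)).1.1 v
    · rw [m2 i v h]
      have h2 : M i (M i v) = v := (hM.mat i hi).1 v
      have h3 : M i (M i v) ≠ M i v := by
        rw [h2]
        exact fun h' => h h'.symm
      rw [m2 i _ h3, h2]
  have adj : ∀ i < q, ∀ v, M' i v ≠ v → G.Adj v (M' i v) := by
    intro i hi v hv
    by_cases h : M i v = v
    · rw [m1 i v h] at hv ⊢
      exact ((hKG _ _).1 (p1 i v hv).1).1
    · rw [m2 i v h]
      exact (f1 i hi v h).2.2
  have dis : ∀ i < q, ∀ j < q, i ≠ j → ∀ v, M' i v ≠ v → M' i v ≠ M' j v := by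
    intro i hi j hj hij v hv he
    by_cases h : M i v = v
    · rw [m1 i v h] at hv he
      obtain ⟨a1, a2⟩ := p1 i v hv
      by_cases h' : M j v = v
      · rw [m1 j v h'] at he
        obtain ⟨b1, b2⟩ := p1 j v (he ▸ hv)
        rw [← he, a2] at b2
        exact hij (he2 i hi j hj b2)
      · rw [m2 j v h'] at he
        obtain ⟨b1, b2, b3⟩ := f1 j hj v h'
        rw [he] at a1
        exact ((hKG _ _).1 a1).2.1 ⟨b1, b2⟩
    · rw [m2 i v h] at hv he
      obtain ⟨b1, b2, b3⟩ := f1 i hi v h
      by_cases h' : M j v = v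
      · rw [m1 j v h'] at he
        obtain ⟨a1, a2⟩ := p1 j v (he ▸ hv)
        rw [← he] at a1
        exact ((hKG _ _).1 a1).2.1 ⟨b1, b2⟩
      · rw [m2 j v h'] at he
        exact hM.dis i hi j hj hij v h he
  -- edges of `K` with a colour not in `F` are in the matchings
  have cov1 : ∀ v w, K.Adj v w → c2 s(v, w) ∉ F → ∃ i < q, M' i v = w := by
    intro v w hvw hcF
    obtain ⟨i, hi, hei⟩ := he3 _ (hO.pec.1 v w hvw) hcF
    refine ⟨i, hi, ?_⟩
    rw [m1 i v (f2 i hi v ⟨w, hvw, hei.symm⟩)]
    exact ((hP (e i)).2.1 v w hvw).2 hei.symm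
  have cross : ∀ v w, (MA2_out G q M' inv).Adj v w → ¬ (v ∈ A ↔ w ∈ A) := by
    rintro v w ⟨hvw, hno⟩
    by_cases h1 : v ∈ X \ Md ∧ w ∈ X \ Md
    · intro hAA
      obtain ⟨i, hi, he⟩ := hM.inn v w ⟨hvw, h1⟩ hAA
      have hne : M i v ≠ v := by
        rw [he]
        exact fun h' => hvw.ne h'.symm
      exact hno i hi (by rw [m2 i v hne, he])
    · by_cases h2 : Rs.Adj v w
      · exact (hO.res v w h2).2
      · have h3 : K.Adj v w := (hKG v w).2 ⟨hvw, h1, h2⟩
        have h4 : c2 s(v, w) ∈ F := by
          by_contra h4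
          obtain ⟨i, hi, he⟩ := cov1 v w h3 h4
          exact hno i hi he
        have h5 : (outG G X).Adj v w := by
          refine ⟨hvw, ?_⟩
          rintro ⟨hv, hw⟩
          apply h1
          rw [Finset.mem_sdiff, Finset.mem_sdiff]
          refine ⟨⟨hv, fun hv' => hO.nF v hv' w hw h3 h4⟩, hw, fun hw' => ?_⟩
          exact hO.nF w hw' v hv h3.symm (by rw [Sym2.eq_swap]; exact h4)
        exact hcr v w h5 (by rw [← hO.ext v w h5]; exact h4)
  have degs : ∀ v, dg (MA2_out G q M' inv) v ≤ F.card := by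
    intro v
    by_cases hvX : v ∈ X
    · obtain ⟨t1, t2, -⟩ := hT.tok v hvX
      have h1 : ∀ i < q, e i ∉ T v → M' i v ≠ v := by
        intro i hi hiT
        by_cases h : M i v = v
        · rw [m1 i v h]
          refine ((hP (e i)).2.2 v).2 ?_
          by_cases hvM : v ∈ Md
          · rcases hO.all v hvM (e i) (he1 i hi).1 (he1 i hi).2 with h' | h'
            · exact absurd h' hiT
            · exact h'
          · have h' := (hM.cov i hi v (Finset.mem_sdiff.2 ⟨hvX, hvM⟩)).1 h
            rw [Finset.mem_filter] at h'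
            rcases h'.2 with h'' | h''
            · exact absurd h'' hiT
            · exact h''
        · rw [m2 i v h]
          exact h
      have h2 : ((Finset.range q).filter fun i => e i ∉ T v).card +
          dg (MA2_out G q M' inv) v ≤ dg G v := by
        have h3 : ((Finset.range q).filter fun i => e i ∉ T v).card =
            (((Finset.range q).filter fun i => e i ∉ T v).image fun i => M' i v).card := by
          rw [Finset.card_image_of_injOn]
          intro i hi j hj he
          have hi' := Finset.mem_filter.1 hi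
          have hj' := Finset.mem_filter.1 hj
          by_contra hne
          exact dis i (Finset.mem_range.1 hi'.1) j (Finset.mem_range.1 hj'.1) hne v
            (h1 i (Finset.mem_range.1 hi'.1) hi'.2) he
        unfold dg dgs
        rw [h3, ← Finset.card_union_of_disjoint]
        · apply Finset.card_le_card
          intro w hw
          rw [Finset.mem_union] at hw
          rw [Finset.mem_filter]
          refine ⟨Finset.mem_univ _, ?_⟩
          rcases hw with hw | hw
          · obtain ⟨i, hi, rfl⟩ := Finset.mem_image.1 hw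
            have hi' := Finset.mem_filter.1 hi
            exact adj i (Finset.mem_range.1 hi'.1) v (h1 i (Finset.mem_range.1 hi'.1) hi'.2)
          · exact (Finset.mem_filter.1 hw).2.1
        · rw [Finset.disjoint_left]
          intro w hw hw'
          obtain ⟨i, hi, rfl⟩ := Finset.mem_image.1 hw
          have hi' := Finset.mem_filter.1 hi
          exact (Finset.mem_filter.1 hw').2.2 i (Finset.mem_range.1 hi'.1) rfl
      have h4 : q ≤ ((Finset.range q).filter fun i => e i ∉ T v).card + (T v).card := by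
        have h5 : ((Finset.range q).filter fun i => e i ∈ T v).card ≤ (T v).card := by
          apply Finset.card_le_card_of_injOn e
          · intro i hi
            exact (Finset.mem_filter.1 hi).2
          · intro i hi j hj he
            exact he2 i (Finset.mem_range.1 (Finset.mem_filter.1 hi).1) j
              (Finset.mem_range.1 (Finset.mem_filter.1 hj).1) he
        have h6 := Finset.card_filter_add_card_filter_not (s := Finset.range q) (fun i => e i ∈ T v)
        rw [Finset.card_range] at h6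
        omega
      omega
    · unfold dg dgs
      apply Finset.card_le_card_of_injOn (fun w => c2 s(v, w))
      · intro w hw
        obtain ⟨-, hvw, hno⟩ := Finset.mem_filter.1 hw
        have h3 : K.Adj v w := by
          refine (hKG v w).2 ⟨hvw, fun h => hvX (Finset.mem_sdiff.1 h.1).1, fun h => ?_⟩
          rcases (hO.res v w h).1 with ⟨h', -⟩ | ⟨-, h'⟩
          · exact hvX (hMd h')
          · exact hvX (Finset.mem_sdiff.1 h').1
        by_contra h4
        obtain ⟨i, hi, he⟩ := cov1 v w h3 h4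
        exact hno i hi he
      · intro w hw w' hw' he
        obtain ⟨-, hvw, -⟩ := Finset.mem_filter.1 hw
        obtain ⟨-, hvw', -⟩ := Finset.mem_filter.1 hw'
        have h3 : ∀ u, G.Adj v u → K.Adj v u := by
          intro u hu
          refine (hKG v u).2 ⟨hu, fun h => hvX (Finset.mem_sdiff.1 h.1).1, fun h => ?_⟩
          rcases (hO.res v u h).1 with ⟨h', -⟩ | ⟨-, h'⟩
          · exact hvX (hMd h')
          · exact hvX (Finset.mem_sdiff.1 h').1
        exact hO.pec.2 v w w' (h3 w hvw) (h3 w' hvw') he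
  have ec1 : EC (MA2_in G q M' inv) q :=
    hCOV V _ q M' inv fun v w hvw => hvw.2
  have ec2 : EC (MA2_out G q M' inv) F.card := hKON V _ A F.card cross degs
  rw [← hqF]
  refine hCUP V G (MA2_in G q M' inv) (MA2_out G q M' inv) q F.card ?_ ec1 ec2
  intro v w hvw
  by_cases h : ∃ i < q, M' i v = w
  · exact Or.inl ⟨hvw, h⟩
  · right
    refine ⟨hvw, fun i hi he => h ⟨i, hi, he⟩⟩

end

end Pool.Agent.OF
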